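import Pool.Agent.Q191.AT.Newt
import Pool.Agent.TH563.UB.Upper
import Pool.Agent.W709.QAT.Fin

/-!
# Arborescent tangles: bound of the divided differences
-/

set_option autoImplicit false

namespace Pool.Agent.Q191.AT

open Finset Filter Topology
open Pool.Agent.W711.HT hiding XX phi
open Pool.Agent.TH563.UV
open Pool.Agent.TH563.Z (XB upp_all xb_ub)
open Pool.Agent.TH563.UB (xb_XX)
open Pool.Agent.TH219.J139 (Ub Ub_diff XX_diff)
open Pool.Agent.W709.VC (RR Lf)
open Pool.Agent.W709.QAT (Rf S_LFH)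
open Pool.Agent.W346.HT (upp_const_mul)
open Pool.Agent.TH929.J29 (nat_exp_ev)
open scoped Real ComplexConjugate

lemma RR_conj (N d : ℕ) (ψ : ℂ) : RR N d (conj ψ) = conj (RR N d ψ) := by
  unfold RR
  rw [map_prod]
  refine prod_congr rfl fun j _ => ?_
  rw [map_sub, map_mul, map_mul, ← Complex.cos_conj, Complex.conj_ofReal, map_neg, map_ofNat]

lemma RR_abs (N d : ℕ) (x y : ℝ) :
    ‖RR N d (x + y * Complex.I)‖ = ‖RR N d (x + ((|y| : ℝ) : ℂ) * Complex.I)‖ := by
  rcases le_or_gt 0 y with h | h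
  · rw [abs_of_nonneg h]
  · have e : (x : ℂ) + ((|y| : ℝ) : ℂ) * Complex.I = conj ((x : ℂ) + y * Complex.I) := by
      rw [abs_of_neg h]
      simp only [map_add, map_mul, Complex.conj_ofReal, Complex.conj_I]
      push_cast
      ring
    rw [e, RR_conj, RCLike.norm_conj]

/-- the products near the real axis -/
theorem rr_strip (hL : S_LFH) (ε : ℝ) (hε : 0 < ε) : ∀ᶠ N : ℕ in atTop, ∀ k d : ℕ, k < N → d < N →
    ∀ B : ℝ, (∀ x : ℝ, Rf (π * d / N) x + Rf (π * k / N) x ≤ B) →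
    ∀ x y : ℝ, |y| ≤ 1 / N →
      ‖RR N k (x + y * Complex.I)‖ * ‖RR N d (x + y * Complex.I)‖ ≤
        Real.exp (N / π * B + ε * N) := by
  have hpi := Real.pi_pos
  set h : ℝ := ε / 4 with hh
  have hh0 : 0 < h := by positivity
  obtain ⟨C, hC⟩ := Pool.Agent.W440.VC.rs h hh0
  have e1 : ∀ᶠ N : ℕ in atTop, 2 * C ≤ ε / 2 * N :=
    (Tendsto.const_mul_atTop (by positivity : 0 < ε / 2)
      tendsto_natCast_atTop_atTop).eventually_ge_atTop (2 * C)
  have e2 : ∀ᶠ N : ℕ in atTop, 1 / h ≤ (N : ℝ) := tendsto_natCast_atTop_atTop.eventually_ge_atTop _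
  filter_upwards [e1, e2, eventually_ge_atTop 1] with N h1 h2 hN1 k d hk hd B hB x y hy
  have hN : (0 : ℝ) < N := by exact_mod_cast hN1
  have hyh : |y| ≤ h := by
    refine hy.trans ?_
    rw [div_le_iff₀ hN]
    rw [div_le_iff₀ hh0] at h2
    linarith
  have hRR : ∀ j : ℕ, j < N →
      ‖RR N j (x + y * Complex.I)‖ ≤ Real.exp (N / π * Rf (π * j / N) (-x / 2) + N * h + C) := by
    intro j hj
    rw [RR_abs]
    have h3 := Pool.Agent.W469.QAT.Jb.RR_mono N j (-x) (abs_nonneg y) hyh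
    have e4 : (-((-x : ℝ) : ℂ)) = (x : ℂ) := by push_cast; ring
    rw [e4] at h3
    refine h3.trans ?_
    apply Pool.Agent.W469.QAT.Jb.le_exp_of_log (norm_nonneg _)
    have h4 := hC N j (by omega) hj.le (-x) h le_rfl
    rw [e4] at h4
    have h5 := (abs_le.1 h4).2
    have h6 := hL h (-x) (π * j / N) hh0 (by positivity) (by
      rw [div_le_iff₀ hN]
      have : (j : ℝ) ≤ N := by exact_mod_cast hj.le
      nlinarith)
    have e5 : 2 * (π * (j : ℝ) / N) = 2 * π * j / N := by ring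
    rw [e5] at h6
    have h7 : N / (4 * π) * (Lf h (-x + 2 * π * j / N) - Lf h (-x - 2 * π * j / N)) ≤
        N / (4 * π) * (4 * Rf (π * j / N) (-x / 2) + 4 * π * h) := by
      gcongr
    have h8 : N / (4 * π) * (4 * Rf (π * j / N) (-x / 2) + 4 * π * h) =
        N / π * Rf (π * j / N) (-x / 2) + N * h := by
      field_simp
    linarith
  calc ‖RR N k (x + y * Complex.I)‖ * ‖RR N d (x + y * Complex.I)‖
      ≤ Real.exp (N / π * Rf (π * k / N) (-x / 2) + N * h + C) *
        Real.exp (N / π * Rf (π * d / N) (-x / 2) + N * h + C) :=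
        mul_le_mul (hRR k hk) (hRR d hd) (norm_nonneg _) (Real.exp_pos _).le
    _ = Real.exp (N / π * (Rf (π * d / N) (-x / 2) + Rf (π * k / N) (-x / 2)) +
          2 * (N * h) + 2 * C) := by
        rw [← Real.exp_add]
        congr 1
        ring
    _ ≤ Real.exp (N / π * B + ε * N) := by
        apply Real.exp_le_exp.2
        have h6 : N / π * (Rf (π * d / N) (-x / 2) + Rf (π * k / N) (-x / 2)) ≤ N / π * B := by
          have := hB (-x / 2)
          gcongr
        have h7 : 2 * (N * h) = ε / 2 * N := by rw [hh]; ring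
        linarith

lemma norm_Kt (N : ℕ) (hN : 0 < N) (t : Tb) :
    ‖Pool.Agent.TH639.J28.Kt N t‖ = ((N : ℝ) ^ 2 / (2 * π)) ^ t.ne := by
  unfold Pool.Agent.TH639.J28.Kt
  have hpi := Real.pi_pos
  have e1 : ‖(2 * (π : ℂ))‖ = 2 * π := by
    rw [norm_mul, Complex.norm_real, Real.norm_of_nonneg hpi.le]
    simp
  rw [norm_mul, norm_mul, norm_zpow, Pool.Agent.TH563.Z.norm_kp hN, one_zpow, norm_pow,
    Pool.Agent.TH563.Z.norm_kb, one_pow, one_mul, one_mul, norm_pow, norm_mul, norm_pow, norm_neg,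
    norm_one, one_pow, one_mul, norm_div, norm_mul, Complex.norm_I, one_mul, norm_pow,
    Complex.norm_natCast, e1]

/-- bound of the divided differences -/
theorem jt_bound (hL : S_LFH) (t : Tb) (ε : ℝ) (hε : 0 < ε) : ∀ᶠ N : ℕ in atTop, ∀ k d : ℕ,
    k < N → d < N → ∀ B : ℝ, (∀ x : ℝ, Rf (π * d / N) x + Rf (π * k / N) x ≤ B) →
    ‖Jt N t k d‖ * Real.exp (-(N * (2 * bet * t.ne))) ≤ Real.exp (N / π * B + ε * N) := by
  obtain ⟨C, hC, h⟩ := upp_all t.wt
  have hU := xb_ub t.bl (xb_XX t)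
  obtain ⟨L, hL'⟩ : ∃ L : ℕ, C ≤ L := exists_nat_ge C
  have hpow : ∀ᶠ N : ℕ in atTop,
      ((N : ℝ) ^ 2 / (2 * π)) ^ t.ne ≤ Real.exp (N * (ε / 4)) := by
    have h1 := (isLittleO_pow_exp_pos_mul_atTop (2 * t.ne)
      (show 0 < ε / 4 by positivity)).bound one_pos
    filter_upwards [tendsto_natCast_atTop_atTop.eventually h1] with N h2
    rw [one_mul, Real.norm_eq_abs, Real.norm_eq_abs, abs_of_nonneg (by positivity),
      abs_of_pos (Real.exp_pos _)] at h2
    refine le_trans ?_ (h2.trans (le_of_eq (by congr 1; ring)))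
    rw [pow_mul]
    apply pow_le_pow_left₀ (by positivity)
    apply div_le_self (by positivity)
    have := Real.pi_gt_three
    linarith
  filter_upwards [hU (ε / 4) (by positivity), h, nat_exp_ev (show 0 < ε / 4 by positivity) 0 L,
    hpow, rr_strip hL (ε / 4) (by positivity), eventually_ge_atTop 2] with
    N h1 h2 h3 h4 h5 hN k d hk hd B hB
  have hN0 : (0 : ℝ) ≤ N := Nat.cast_nonneg N
  have hpi := Real.pi_gt_three
  have e1 : Jt N t k d = Complex.I / (2 * π) * (Pool.Agent.TH639.J28.Kt N t *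
      upp (1 / N) fun ψ => Ea t.wt N ψ *
        ((Ub t.bl N ψ * Pool.Agent.TH563.UV.XX t N ψ) * (RR N k ψ * RR N d ψ)) * kr N ψ) := by
    unfold Jt
    congr 1
    rw [← upp_const_mul]
    congr 1
    funext ψ
    unfold Ft Eb Ub
    ring
  have h6 := h2 (fun ψ => (Ub t.bl N ψ * Pool.Agent.TH563.UV.XX t N ψ) *
      (RR N k ψ * RR N d ψ)) (Real.exp (N * (2 * bet * t.ne + ε / 4)) *
        Real.exp (N / π * B + ε / 4 * N))
    (((Ub_diff t.bl N).continuous.mul ((XX_diff t).1 N).continuous).mul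
      ((RR_cont N k).mul (RR_cont N d)))
    (fun x y hx hy => by
      rw [norm_mul]
      refine mul_le_mul (h1 x y hx hy) ?_ (norm_nonneg _) (Real.exp_pos _).le
      rw [norm_mul]
      exact h5 k d hk hd B hB x y hy)
  have h7 : C ≤ Real.exp (ε / 4 * N) := by
    refine hL'.trans ?_
    simpa using h3
  have e2 : ‖Complex.I / (2 * (π : ℂ))‖ ≤ 1 := by
    rw [norm_div, Complex.norm_I, norm_mul, Complex.norm_real, Real.norm_of_nonneg (by linarith)]
    rw [Complex.norm_ofNat, div_le_one (by linarith)]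
    linarith
  have h8 : ‖Jt N t k d‖ ≤ 1 * (Real.exp (N * (ε / 4)) * (Real.exp (ε / 4 * N) *
      (Real.exp (N * (2 * bet * t.ne + ε / 4)) * Real.exp (N / π * B + ε / 4 * N)))) := by
    rw [e1, norm_mul, norm_mul, norm_Kt N (by omega)]
    refine mul_le_mul e2 ?_ (by positivity) zero_le_one
    refine mul_le_mul h4 ?_ (norm_nonneg _) (Real.exp_pos _).le
    exact h6.trans (mul_le_mul_of_nonneg_right h7 (by positivity))
  refine (mul_le_mul_of_nonneg_right h8 (Real.exp_pos _).le).trans ?_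
  rw [one_mul, ← Real.exp_add, ← Real.exp_add, ← Real.exp_add, ← Real.exp_add]
  apply le_of_eq
  congr 1
  ring

end Pool.Agent.Q191.AT
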