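import Pool.Agent.Q191.AT.Bound
import Pool.Agent.W215.QAT.Term
import Pool.Agent.W481.QAT.Ent

/-!
# Arborescent tangles: bound of the entries of the operator
-/

set_option autoImplicit false

namespace Pool.Agent.Q191.AT

open Finset Matrix Filter Topology
open Pool.Agent.H550R3.Jones Pool.Agent.W715.VC
open Pool.Agent.W719.BX (Mn)
open Pool.Agent.TH563.UV (Tb op)
open Pool.Agent.W711.HT (bet vN)
open Pool.Agent.W709.QAT (Rf S_LFH Fa XX S_FE S_CALC S_LB)
open GapVol (lob)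
open scoped Real Kronecker

/-! ### the symmetry -/

section

variable {N : ℕ}

lemma Eo_rev (i j : Fin N) : Eo N i.rev j.rev = Fo N i j := by
  have hi := i.2
  have hj := j.2
  have r1 : ((i.rev : Fin N) : ℕ) = N - 1 - i := by rw [Fin.val_rev]; omega
  have r2 : ((j.rev : Fin N) : ℕ) = N - 1 - j := by rw [Fin.val_rev]; omega
  unfold Eo Fo irr
  dsimp only
  rw [r1, r2]
  by_cases h : (i : ℕ) = j + 1
  · rw [if_pos h, if_pos (by omega)]
    congr 1
    omega
  · rw [if_neg h, if_neg (by omega)]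

lemma Fo_rev (i j : Fin N) : Fo N i.rev j.rev = Eo N i j := by
  rw [← Eo_rev, Fin.rev_rev, Fin.rev_rev]

lemma Ko_rev (i j : Fin N) : Ko N i.rev j.rev = Ki N i j := by
  have hi := i.2
  have r1 : ((i.rev : Fin N) : ℕ) = N - 1 - i := by rw [Fin.val_rev]; omega
  unfold Ko Ki WM.K
  by_cases h : i = j
  · subst h
    simp only [diagonal_apply_eq, irr]
    rw [r1]
    congr 1
    omega
  · rw [diagonal_apply_ne _ h, diagonal_apply_ne _ (fun h' => h (Fin.rev_injective h'))]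

lemma Ki_rev (i j : Fin N) : Ki N i.rev j.rev = Ko N i j := by
  rw [← Ko_rev, Fin.rev_rev, Fin.rev_rev]

lemma one_rev (i j : Fin N) : (1 : M1 N) i.rev j.rev = (1 : M1 N) i j := by
  by_cases h : i = j
  · subst h
    rw [Matrix.one_apply_eq, Matrix.one_apply_eq]
  · rw [Matrix.one_apply_ne h, Matrix.one_apply_ne (fun h' => h (Fin.rev_injective h'))]

lemma EE_J2 (p q : Fin N × Fin N) : EE N (J2 p) (J2 q) = FF N p q := by
  unfold EE FF J2
  rw [Matrix.add_apply, Matrix.add_apply, kroneckerMap_apply, kroneckerMap_apply,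
    kroneckerMap_apply, kroneckerMap_apply]
  dsimp only
  rw [Eo_rev, Ko_rev, one_rev, Eo_rev]
  ring

lemma FF_J2 (p q : Fin N × Fin N) : FF N (J2 p) (J2 q) = EE N p q := by
  rw [← EE_J2, J2_J2, J2_J2]

lemma KK_J2 (p q : Fin N × Fin N) : KK N (J2 p) (J2 q) = KKi N p q := by
  unfold KK KKi J2
  rw [kroneckerMap_apply, kroneckerMap_apply]
  dsimp only
  rw [Ko_rev, Ko_rev]
  ring

lemma KKi_J2 (p q : Fin N × Fin N) : KKi N (J2 p) (J2 q) = KK N p q := by
  rw [← KK_J2, J2_J2, J2_J2]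

lemma CC_J2 : (CC N).submatrix (J2E N) (J2E N) = CC N := by
  have e1 : (EE N).submatrix (J2E N) (J2E N) = FF N := by ext p q; exact EE_J2 p q
  have e2 : (FF N).submatrix (J2E N) (J2E N) = EE N := by ext p q; exact FF_J2 p q
  have e3 : (KK N).submatrix (J2E N) (J2E N) = KKi N := by ext p q; exact KK_J2 p q
  have e4 : (KKi N).submatrix (J2E N) (J2E N) = KK N := by ext p q; exact KKi_J2 p q
  have h : (CC N).submatrix (J2E N) (J2E N) =
      EE N * FF N + (rt N • KKi N + (rt N)⁻¹ • KK N) := by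
    unfold CC
    rw [Matrix.submatrix_add, Matrix.submatrix_add, Matrix.submatrix_smul,
      Matrix.submatrix_smul]
    simp only [Pi.add_apply, Pi.smul_apply]
    rw [← Matrix.submatrix_mul_equiv _ _ _ (J2E N) _, e1, e2, e3, e4]
  rw [h, sub_eq_iff_eq_add.1 (EE_FF (N := N)), CC]
  module

lemma Mn_J2 (i : ℕ) : (Mn N i).submatrix (J2E N) (J2E N) = Mn N i := by
  induction i with
  | zero => exact Matrix.submatrix_one_equiv _
  | succ i ih =>
    show ((CC N - ((th N i : ℝ) : ℂ) • (1 : M2 N)) * Mn N i).submatrix (J2E N) (J2E N) =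
      (CC N - ((th N i : ℝ) : ℂ) • (1 : M2 N)) * Mn N i
    rw [← Matrix.submatrix_mul_equiv _ _ _ (J2E N) _, ih, Matrix.submatrix_sub,
      Matrix.submatrix_smul]
    simp only [Pi.sub_apply, Pi.smul_apply]
    rw [CC_J2, Matrix.submatrix_one_equiv]

lemma op_J2 (hN : 2 ≤ N) (t : Tb) (p q : Fin N × Fin N) :
    op N (vN N) t (J2 p) (J2 q) = op N (vN N) t p q := by
  rw [op_root N hN t, Matrix.sum_apply, Matrix.sum_apply]
  refine sum_congr rfl fun i _ => ?_
  rw [Matrix.smul_apply, Matrix.smul_apply]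
  congr 1
  exact congrFun (congrFun (Mn_J2 i) p) q

end

/-! ### the terms -/

theorem term_op (hC : S_CALC) (hL : S_LFH) (hLB : S_LB) (t : Tb) : ∀ ε : ℝ, 0 < ε →
    ∀ᶠ N : ℕ in atTop, ∀ M l a b a' b' k k' : ℕ, a + b + M + 1 = N → a' + b' = a + b → k ≤ a →
    k ≤ a' → k' ≤ b → k' ≤ b' → k + k' + l = a + b →
    ‖Jt N t M (N - 1 - M - l)‖ * XX N l a b a' b' k k' ≤
      Real.exp (N * (10 * lob (π / 6) / π + 2 * bet * t.ne + ε)) := by
  have h := Pool.Agent.W215.QAT.term_core lob Fa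
    (fun _ N k d => ‖Jt N t k d‖ * Real.exp (-(N * (2 * bet * t.ne)))) GapVol.lob_cont
    Pool.Agent.H811R3.EvenVolR.lob_per hC (by
      intro ε hε
      filter_upwards [jt_bound hL t ε hε] with N hN A k d hA hkd B hB
      refine (hN k d (by omega) (by omega) B hB).trans ?_
      refine le_mul_of_one_le_left (Real.exp_pos _).le ?_
      have : (1 : ℝ) ≤ A := by exact_mod_cast hA
      exact one_le_pow₀ this) hLB
  intro ε hε
  filter_upwards [h ε hε] with N hN M l a b a' b' k k' h1 h2 h3 h4 h5 h6 h7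
  have h8 := hN 1 M l a b a' b' k k' le_rfl h1 h2 h3 h4 h5 h6 h7
  have h9 : ‖Jt N t M (N - 1 - M - l)‖ * XX N l a b a' b' k k' =
      Real.exp (N * (2 * bet * t.ne)) * (‖Jt N t M (N - 1 - M - l)‖ *
        Real.exp (-(N * (2 * bet * t.ne))) * XX N l a b a' b' k k') := by
    rw [Real.exp_neg]
    have := (Real.exp_pos (N * (2 * bet * t.ne))).ne'
    field_simp
  rw [h9]
  refine (mul_le_mul_of_nonneg_left h8 (Real.exp_pos _).le).trans ?_
  rw [Nat.cast_one, one_pow, one_mul, ← Real.exp_add]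
  apply le_of_eq
  congr 1
  ring

/-- the entries of the operator of a tree -/
theorem ent_op (hC : S_CALC) (hL : S_LFH) (hLB : S_LB) (hF : S_FE) (t : Tb) : ∀ ε : ℝ, 0 < ε →
    ∀ᶠ N : ℕ in atTop, ∀ p q : Fin N × Fin N,
    ‖op N (vN N) t p q‖ ≤ Real.exp (N * (10 * lob (π / 6) / π + 2 * bet * t.ne + ε)) := by
  intro ε hε
  filter_upwards [term_op hC hL hLB t (ε / 2) (half_pos hε),
    Pool.Agent.W481.QAT.pow3 (half_pos hε), eventually_ge_atTop 2] with N h1 h2 h3
  have hN0 : 0 < N := by omega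
  set B : ℝ := Real.exp (N * (10 * lob (π / 6) / π + 2 * bet * t.ne + ε / 2)) with hB
  have hB0 : 0 ≤ B := (Real.exp_pos _).le
  have hfin : (N : ℝ) ^ 3 * B ≤
      Real.exp (N * (10 * lob (π / 6) / π + 2 * bet * t.ne + ε)) := by
    have e1 : Real.exp (N * (10 * lob (π / 6) / π + 2 * bet * t.ne + ε)) =
        Real.exp (ε / 2 * N) * B := by
      rw [hB, ← Real.exp_add]
      congr 1
      ring
    rw [e1]
    exact mul_le_mul_of_nonneg_right h2 hB0
  have key : ∀ p q : Fin N × Fin N, (q.1 : ℕ) + q.2 ≤ N - 1 →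
      ‖op N (vN N) t p q‖ ≤ Real.exp (N * (10 * lob (π / 6) / π + 2 * bet * t.ne + ε)) := by
    intro p q hq
    refine le_trans ?_ hfin
    obtain ⟨M, hM⟩ : ∃ M : ℕ, (q.1 : ℕ) + q.2 + M = N - 1 := ⟨N - 1 - (q.1 + q.2), by omega⟩
    rw [op_nwt t N M p q h3 hM]
    refine (_root_.norm_sum_le _ _).trans ?_
    have h5 : ∀ l ∈ range (N - M), ‖Jt N t M (N - 1 - M - l) * (FF N ^ l * EE N ^ l) p q‖ ≤
        (N : ℝ) ^ 2 * B := by
      intro l _
      rw [norm_mul]
      have h6 := hF N l p q hN0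
      refine (mul_le_mul_of_nonneg_left h6 (norm_nonneg _)).trans ?_
      rw [Finset.mul_sum]
      have h8 : ∀ m ∈ (univ : Finset (Fin N × Fin N)), ‖Jt N t M (N - 1 - M - l)‖ *
          (if (m.1 : ℕ) ≤ p.1 ∧ (m.1 : ℕ) ≤ q.1 ∧ (m.2 : ℕ) ≤ p.2 ∧ (m.2 : ℕ) ≤ q.2 ∧
            (m.1 : ℕ) + m.2 + l = q.1 + q.2 ∧ (p.1 : ℕ) + p.2 = q.1 + q.2 then
          XX N l p.1 p.2 q.1 q.2 m.1 m.2 else 0) ≤ B := by
        intro m _
        split_ifs with hc
        · obtain ⟨c1, c2, c3, c4, c5, c6⟩ := hc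
          exact h1 M l p.1 p.2 q.1 q.2 m.1 m.2 (by omega) (by omega) c1 c2 c3 c4 (by omega)
        · rw [mul_zero]
          exact hB0
      refine (Finset.sum_le_card_nsmul _ _ _ h8).trans ?_
      rw [Finset.card_univ, Fintype.card_prod, Fintype.card_fin, nsmul_eq_mul]
      push_cast
      exact le_of_eq (by ring)
    refine (Finset.sum_le_card_nsmul _ _ _ h5).trans ?_
    rw [card_range, nsmul_eq_mul]
    have h12 : ((N - M : ℕ) : ℝ) ≤ N := by
      exact_mod_cast Nat.sub_le N M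
    have h13 : 0 ≤ (N : ℝ) ^ 2 * B := by positivity
    calc ((N - M : ℕ) : ℝ) * ((N : ℝ) ^ 2 * B) ≤ N * ((N : ℝ) ^ 2 * B) :=
          mul_le_mul_of_nonneg_right h12 h13
      _ = (N : ℝ) ^ 3 * B := by ring
  intro p q
  by_cases hq : (q.1 : ℕ) + q.2 ≤ N - 1
  · exact key p q hq
  · rw [← op_J2 h3]
    refine key _ _ ?_
    have e1 : ((J2 q).1 : ℕ) = N - (q.2 + 1) := Fin.val_rev q.2
    have e2 : ((J2 q).2 : ℕ) = N - (q.1 + 1) := Fin.val_rev q.1
    rw [e1, e2]
    have := q.1.2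
    have := q.2.2
    omega

end Pool.Agent.Q191.AT
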