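import Pool.Agent.TH219.J139
import Pool.Agent.W978.BX.PPA
import Pool.Agent.W469.QAT.Nwt
import Pool.Agent.W346.HT.Path

/-!
# Arborescent tangles: Newton expansion of the operator on the weight spaces
-/

set_option autoImplicit false

namespace Pool.Agent.Q191.AT

open Finset Filter Topology Matrix
open Pool.Agent.H550R3.Jones
open Pool.Agent.W711.HT hiding XX phi
open Pool.Agent.TH563.UV
open Pool.Agent.TH639.J28
open Pool.Agent.W709.VC (RR)
open Pool.Agent.W715.VC (th CC FF EE)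
open Pool.Agent.W719.BX (Mn)
open Pool.Agent.W978.BX (Mv)
open Pool.Agent.W346.HT (IntP IntP_kr upp_const_mul)
open scoped Real

/-- the limit of the eigenvalues of the operator of a tree -/
noncomputable def Ft (N : ℕ) (t : Tb) (ψ : ℂ) : ℂ :=
  Kt N t * (Eb t.bl t.wt N ψ * Pool.Agent.TH563.UV.XX t N ψ)

/-- the divided differences at the root of unity -/
noncomputable def Jt (N : ℕ) (t : Tb) (k d : ℕ) : ℂ :=
  Complex.I / (2 * π) * upp (1 / N) fun ψ => Ft N t ψ * RR N k ψ * RR N d ψ * kr N ψ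

lemma op_gen {u : ℂ} (hu : Gen u) (N : ℕ) (t : Tb) :
    op N (u ^ 2) t = ∑ i ∈ range N,
      Pool.Agent.W719.AR.dd (u ^ 2) (evb N (u ^ 2) t) i • Mv (u ^ 2) N i := by
  obtain ⟨φ, ψ, h⟩ := Pool.Agent.H897R.J.taskDec Pool.Agent.H345J.taskMod Pool.Agent.H345J.taskInt
    u hu N
  have h1 := Pool.Agent.W709.RT.Fn_eq h (op N (u ^ 2) t) (fun d => evb N (u ^ 2) t (N - 1 - d))
    (op_eig Pool.Agent.W637.AR.rote u hu N h t)
  rw [h1, Pool.Agent.W709.RT.Fn_newton (Pool.Agent.W709.RT.ui_inj hu) (evb N (u ^ 2) t)]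
  refine sum_congr rfl fun i _ => ?_
  rw [Pool.Agent.W978.BX.Mv_eq hu.1 h, Pool.Agent.W637.AR.dd_eq]

lemma op_off {v : ℂ} (hv : v ≠ 0) (hv1 : ‖v‖ ≠ 1) (N : ℕ) (t : Tb) :
    op N v t = ∑ i ∈ range N, Pool.Agent.W719.AR.dd v (evb N v t) i • Mv v N i := by
  obtain ⟨u, hu, hg⟩ := Pool.Agent.W803.AR.gen_off hv hv1
  have := op_gen hg N t
  rwa [hu] at this

lemma RR_Rp (N d : ℕ) (ψ : ℂ) : RR N d ψ = (-1) ^ d * Rp N d ψ := by
  unfold RR Rp
  rw [← card_range d, ← prod_const, card_range, ← prod_mul_distrib]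
  refine prod_congr rfl fun j _ => ?_
  have : Pool.Agent.W709.VC.phi N j = Pool.Agent.W711.HT.phi N j := rfl
  rw [this]
  ring

lemma RR_cont (N d : ℕ) : Continuous (RR N d) := by
  have : RR N d = fun ψ => (-1) ^ d * Rp N d ψ := by
    funext ψ
    exact RR_Rp N d ψ
  rw [this]
  exact continuous_const.mul (Pool.Agent.W346.HT.Rp_cont N d)

lemma Ft_cont (N : ℕ) (t : Tb) : Continuous (Ft N t) := by
  have h1 : Ft N t = fun ψ => Kt N t * (Ea t.wt N ψ * Pool.Agent.TH219.J139.Ub t.bl N ψ *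
      Pool.Agent.TH563.UV.XX t N ψ) := rfl
  rw [h1]
  exact continuous_const.mul (((Pool.Agent.W346.HT.Ea_cont _ N).mul
    (Pool.Agent.TH219.J139.Ub_diff t.bl N).continuous).mul
    ((Pool.Agent.TH219.J139.XX_diff t).1 N).continuous)

lemma upp_add {h : ℝ} {f g : ℂ → ℂ} (hf : IntP h f) (hg : IntP h g) :
    upp h (fun ψ => f ψ + g ψ) = upp h f + upp h g := by
  unfold upp
  rw [intervalIntegral.integral_add hf.1 hg.1, intervalIntegral.integral_add hf.2.1 hg.2.1,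
    intervalIntegral.integral_add hf.2.2 hg.2.2]
  ring

lemma th_phi (N d : ℕ) : ((th N d : ℝ) : ℂ) = 2 * (Real.cos (Pool.Agent.W709.VC.phi N d) : ℂ) := by
  unfold th Pool.Agent.W709.VC.phi
  push_cast
  rfl

lemma RR_succ (N d : ℕ) (ψ : ℂ) :
    RR N (d + 1) ψ = RR N d ψ * (-2 * Complex.cos ψ - ((th N d : ℝ) : ℂ)) := by
  rw [th_phi]
  unfold RR
  rw [prod_range_succ]

/-- the recursion of the divided differences -/
lemma Jt_rec {N : ℕ} (hN : 0 < N) (t : Tb) (k d : ℕ) :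
    Jt N t (k + 1) d = Jt N t k (d + 1) + ((th N d - th N k : ℝ) : ℂ) * Jt N t k d := by
  have hF := Ft_cont N t
  have i1 := IntP_kr hN ((hF.mul (RR_cont N k)).mul (RR_cont N (d + 1)))
  have i2 := (IntP_kr hN ((hF.mul (RR_cont N k)).mul (RR_cont N d))).const_mul
    ((th N d - th N k : ℝ) : ℂ)
  have e : (fun ψ => Ft N t ψ * RR N (k + 1) ψ * RR N d ψ * kr N ψ) = fun ψ =>
      (Ft N t ψ * RR N k ψ * RR N (d + 1) ψ * kr N ψ) +
      ((th N d - th N k : ℝ) : ℂ) * (Ft N t ψ * RR N k ψ * RR N d ψ * kr N ψ) := by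
    funext ψ
    rw [RR_succ, RR_succ]
    push_cast
    ring
  unfold Jt
  rw [e]
  have h := upp_add i1 i2
  have h2 := upp_const_mul (1 / N) ((th N d - th N k : ℝ) : ℂ)
    (fun ψ => Ft N t ψ * RR N k ψ * RR N d ψ * kr N ψ)
  rw [mul_comm ((th N d - th N k : ℝ) : ℂ) (Complex.I / (2 * π) * _), mul_assoc,
    mul_comm _ ((th N d - th N k : ℝ) : ℂ), ← h2, ← mul_add]
  exact congrArg (fun z => Complex.I / (2 * π) * z) h

/-- the operator at the root of unity -/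
theorem op_root (N : ℕ) (hN : 2 ≤ N) (t : Tb) :
    op N (vN N) t = ∑ i ∈ range N, Jt N t 0 (N - 1 - i) • Mn N i := by
  set v0 := vN N with hv0d
  have hv0 : v0 ≠ 0 := Complex.exp_ne_zero _
  have hnorm : ‖v0‖ = 1 := Pool.Agent.W709.RT.v0_norm N
  have hne : (𝓝[{v : ℂ | ‖v‖ ≠ 1}] v0).NeBot := by
    rw [← mem_closure_iff_nhdsWithin_neBot, Metric.mem_closure_iff]
    intro ε hε
    refine ⟨((1 + ε / 2 : ℝ) : ℂ) * v0, ?_, ?_⟩
    · simp only [Set.mem_ofPred_eq, norm_mul, hnorm, mul_one, Complex.norm_real, Real.norm_eq_abs]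
      rw [abs_of_pos (by linarith)]
      linarith
    · rw [dist_eq_norm]
      have : v0 - ((1 + ε / 2 : ℝ) : ℂ) * v0 = ((-(ε / 2) : ℝ) : ℂ) * v0 := by
        push_cast
        ring
      rw [this, norm_mul, hnorm, mul_one, Complex.norm_real, Real.norm_eq_abs, abs_neg,
        abs_of_pos (by linarith)]
      linarith
  have hle : 𝓝[{v : ℂ | ‖v‖ ≠ 1}] v0 ≤ 𝓝[≠] v0 := by
    apply nhdsWithin_mono
    intro v hv hc
    rw [Set.mem_singleton_iff] at hc
    apply hv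
    rw [hc, hnorm]
  have hbr : ∀ k : ℕ, 0 < k → k < N → br v0 k ≠ 0 := Pool.Agent.W709.RT.br_v0 (N := N)
  have h1 : Tendsto (fun v : ℂ => op N v t) (𝓝[{v : ℂ | ‖v‖ ≠ 1}] v0) (𝓝 (op N v0 t)) := by
    have : ContinuousAt (fun v : ℂ => op N v t) v0 :=
      continuousAt_pi.2 fun p => continuousAt_pi.2 fun q => op_cont hv0 hbr t p q
    exact this.tendsto.mono_left nhdsWithin_le_nhds
  have hLm := lm_tree (Pool.Agent.W885.AR.lmr Pool.Agent.W490.AR.lmd Pool.Agent.W12.AR.gam_lim)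
    Pool.Agent.W199.AR.lmv Pool.Agent.W719.AR.lmm N hN t
  have hco : ∀ i ∈ range N, Tendsto (fun v : ℂ => Pool.Agent.W719.AR.dd v (evb N v t) i)
      (𝓝[{v : ℂ | ‖v‖ ≠ 1}] v0) (𝓝 (Jt N t 0 (N - 1 - i))) := by
    intro i hi
    rw [mem_range] at hi
    have h2 := Pool.Agent.W490.AR.lmd N _ _ hN hLm i hi
    have e : Jt N t 0 (N - 1 - i) = Complex.I / (2 * π) * (-1) ^ (N - 1 - i) *
        upp (1 / N) fun ψ => Kt N t * (Eb t.bl t.wt N ψ * Pool.Agent.TH563.UV.XX t N ψ) *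
          Rp N (N - 1 - i) ψ * kr N ψ := by
      unfold Jt
      rw [mul_assoc]
      congr 1
      rw [← upp_const_mul]
      congr 1
      funext ψ
      rw [RR_Rp N (N - 1 - i), RR_Rp N 0]
      unfold Ft Rp
      simp only [range_zero, prod_empty, pow_zero]
      ring
    rw [e]
    exact h2.mono_left hle
  have h2 : Tendsto (fun v : ℂ => ∑ i ∈ range N, Pool.Agent.W719.AR.dd v (evb N v t) i • Mv v N i)
      (𝓝[{v : ℂ | ‖v‖ ≠ 1}] v0)
      (𝓝 (∑ i ∈ range N, Jt N t 0 (N - 1 - i) • Mv v0 N i)) := by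
    refine tendsto_finsetSum _ fun i hi => ?_
    exact (hco i hi).smul ((Pool.Agent.W978.BX.Mv_cont hv0 N i).mono_left nhdsWithin_le_nhds)
  have h3 : (fun v : ℂ => op N v t) =ᶠ[𝓝[{v : ℂ | ‖v‖ ≠ 1}] v0]
      fun v : ℂ => ∑ i ∈ range N, Pool.Agent.W719.AR.dd v (evb N v t) i • Mv v N i := by
    have hv0' : ∀ᶠ v in 𝓝[{v : ℂ | ‖v‖ ≠ 1}] v0, v ≠ 0 :=
      nhdsWithin_le_nhds (isOpen_ne.mem_nhds hv0)
    filter_upwards [self_mem_nhdsWithin, hv0'] with v hv hv'
    exact op_off hv' hv N t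
  rw [tendsto_nhds_unique (h1.congr' h3) h2]
  refine sum_congr rfl fun i _ => ?_
  rw [Pool.Agent.W978.BX.Mn_eq]
  rfl

open Pool.Agent.W469.QAT.Nwt in
/-- the expansion on the weight space `q.1 + q.2 = N - 1 - M` -/
theorem op_nwt (t : Tb) (N M : ℕ) (p q : Fin N × Fin N) (hN : 2 ≤ N)
    (hq : (q.1 : ℕ) + q.2 + M = N - 1) :
    op N (vN N) t p q =
      ∑ l ∈ range (N - M), Jt N t M (N - 1 - M - l) * (FF N ^ l * EE N ^ l) p q := by
  set s : ℕ := (q.1 : ℕ) + q.2 with hs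
  have hsM : s + M + 1 = N := by omega
  set x : Fin N × Fin N → ℂ := Pi.single q 1 with hx
  have hxW : Wt s x := by
    intro r hr
    rw [hx]
    refine Pi.single_eq_of_ne ?_ _
    rintro rfl
    exact hr rfl
  have hcol : ∀ (B : Matrix (Fin N × Fin N) (Fin N × Fin N) ℂ), B p q = (B *ᵥ x) p := by
    intro B
    rw [hx, Matrix.mulVec_single_one]
    rfl
  have hV0 : op N (vN N) t = Vl (CC N) (Jt N t) 0 := by
    rw [op_root N hN t]
    unfold Vl
    refine sum_congr rfl fun i _ => ?_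
    rw [Pool.Agent.W469.QAT.Nwt.Mn_eq, Nat.sub_zero]
  have hstep : ∀ l, l ≤ M → Vl (CC N) (Jt N t) 0 *ᵥ x = Vl (CC N) (Jt N t) l *ᵥ x := by
    intro l
    induction l with
    | zero => intro _; rfl
    | succ l ih =>
      intro hl
      rw [ih (by omega), Vl_step (fun k d => Jt_rec (by omega) t k d) (by omega),
        Matrix.add_mulVec, Matrix.smul_mulVec]
      have e : N - 1 - l = (M - (l + 1)) + (N - M) := by omega
      have e2 : l + 1 + (M - (l + 1)) = M := by omega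
      rw [e, Ql_split, (comm_QlQl (CC N) _ _ _ _).eq, ← Matrix.mulVec_mulVec, e2,
        Ql_kill hsM hxW, Matrix.mulVec_zero, smul_zero, add_zero]
  refine (hcol (op N (vN N) t)).trans ?_
  rw [hV0, hstep M le_rfl]
  unfold Vl
  rw [Matrix.sum_mulVec, Finset.sum_apply]
  refine sum_congr rfl fun l hl => ?_
  rw [mem_range] at hl
  rw [Matrix.smul_mulVec, Pi.smul_apply, smul_eq_mul, ← FE_pow hsM l x hxW (by omega)]
  congr 1
  rw [Matrix.mulVec_mulVec]
  exact (hcol (FF N ^ l * EE N ^ l)).symm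

end Pool.Agent.Q191.AT
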