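import Pool.Agent.Q191.AT.Ent

/-!
# Arborescent tangles: the growth rate of the entries
-/

set_option autoImplicit false

namespace Pool.Agent.Q191.AT

open Finset Matrix Filter Topology
open Pool.Agent.H550R3.Jones Pool.Agent.W715.VC
open Pool.Agent.H927R2.J.SanYB (brf_ne)
open Pool.Agent.TH563.UV (Tb op opv)
open Pool.Agent.W711.HT (bet vN)
open Pool.Agent.W719.BS (rot cup)
open Pool.Agent.TH929.J29 (nat_exp_ev)
open GapVol (lob)
open scoped Real

/-- bound of the growth rate of a tree -/
noncomputable def Rt : Tb → ℝ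
  | .vx b a => if b then 30 * lob (π / 3) else Pool.Agent.W709.QAT.rate a.natAbs
  | .br t c => min (Rt t + Rt c) (30 * lob (π / 3) + 16 * lob (π / 4) * (Tb.br t c).ne)

lemma norm_bcup {N : ℕ} (hN : 0 < N) {j : ℕ} (hj : j < N) :
    ‖cup N (rt N) j‖ = ‖brf (rt N) (N - 1)‖ := by
  unfold cup
  rw [norm_mul, norm_mul, norm_pow, norm_neg, norm_one, one_pow, one_mul, norm_rt_zpow, mul_one,
    mul_comm (brf (rt N) j), Pool.Agent.W28.QAT.brf_refl hN j hj]

lemma norm_rot {N : ℕ} (hN : 0 < N) (A : Matrix (Fin N × Fin N) (Fin N × Fin N) ℂ)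
    (p q : Fin N × Fin N) : ‖rot N (vN N) A p q‖ = ‖A (p.2, q.2.rev) (p.1.rev, q.1)‖ := by
  have e : vN N = rt N := rfl
  unfold rot
  rw [norm_mul, norm_div, e, norm_bcup hN p.1.2, norm_bcup hN q.2.2, div_self, one_mul]
  exact norm_ne_zero_iff.2 (brf_ne (adm N) (by omega))

theorem ent_all (t : Tb) : ∀ ε : ℝ, 0 < ε → ∀ᶠ N : ℕ in atTop, ∀ p q : Fin N × Fin N,
    ‖op N (vN N) t p q‖ ≤ Real.exp (N * (10 * lob (π / 6) / π + 2 * bet * t.ne + ε)) :=
  ent_op Pool.Agent.W709.QAT.calc_max Pool.Agent.W991.QAT.lfh Pool.Agent.W563.QAT.lb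
    (Pool.Agent.W563.QAT.fe Pool.Agent.W577.QAT.eel Pool.Agent.W577.QAT.ffl) t

lemma const_eq (n : ℝ) : 10 * lob (π / 6) / π + 2 * bet * n =
    (30 * lob (π / 3) + 16 * lob (π / 4) * n) / (2 * π) := by
  have hdup : 3 * lob (π / 3) = 2 * lob (π / 6) := GapVol.lob_dup
  have hπ := Real.pi_pos
  have e3 : 30 * lob (π / 3) = 20 * lob (π / 6) := by linarith
  have hb : bet = 4 * lob (π / 4) / π := Pool.Agent.W688.HT.bet_eq
  rw [hb, e3]
  field_simp
  ring

theorem ent_rate (t : Tb) : ∀ ε : ℝ, 0 < ε → ∀ᶠ N : ℕ in atTop, ∀ p q : Fin N × Fin N,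
    ‖op N (vN N) t p q‖ ≤ Real.exp (N * (Rt t / (2 * π) + ε)) := by
  induction t with
  | vx b a =>
    intro ε hε
    cases b with
    | true =>
      filter_upwards [ent_all (Tb.vx true a) ε hε] with N hN p q
      have h := hN p q
      rw [const_eq] at h
      have e : (30 * lob (π / 3) + 16 * lob (π / 4) * ((Tb.vx true a).ne : ℝ)) =
          Rt (Tb.vx true a) := by
        show (30 * lob (π / 3) + 16 * lob (π / 4) * ((0 : ℕ) : ℝ)) = 30 * lob (π / 3)
        rw [Nat.cast_zero, mul_zero, add_zero]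
      rw [e] at h
      exact h
    | false =>
      filter_upwards [Pool.Agent.W709.QAT.tw (ε / 2) (by positivity),
        nat_exp_ev (show 0 < ε / 2 by positivity) 0 ((a.natAbs + 1) ^ 2)] with N h1 h2 p q
      have h3 := h1 a.natAbs p q
      have h4 : ((a.natAbs : ℝ) + 1) ^ 2 ≤ Real.exp (ε / 2 * N) := by
        have h5 := h2
        linarith
      have h6 : ((a.natAbs : ℝ) + 1) ^ 2 *
          Real.exp (N * (Pool.Agent.W709.QAT.rate a.natAbs / (2 * π) + ε / 2)) ≤
          Real.exp (N * (Rt (Tb.vx false a) / (2 * π) + ε)) := by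
        refine (mul_le_mul_of_nonneg_right h4 (Real.exp_pos _).le).trans ?_
        rw [← Real.exp_add]
        apply le_of_eq
        congr 1
        show ε / 2 * N + N * (Pool.Agent.W709.QAT.rate a.natAbs / (2 * π) + ε / 2) =
          N * (Pool.Agent.W709.QAT.rate a.natAbs / (2 * π) + ε)
        ring
      have h7 : op N (vN N) (Tb.vx false a) = if 0 ≤ a then PP N ^ a.natAbs else
          QQ N ^ a.natAbs := by
        show opv N (vN N) false a = _
        unfold opv
        simp only [Bool.false_eq_true, if_false, one_mul]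
        by_cases ha : 0 ≤ a
        · rw [if_pos ha, if_pos ha]
          have : a.toNat = a.natAbs := by omega
          rw [this]
          rfl
        · rw [if_neg ha, if_neg ha]
          have : (-a).toNat = a.natAbs := by omega
          rw [this]
          rfl
      rw [h7]
      split_ifs with ha
      · exact h3.1.trans h6
      · exact h3.2.trans h6
  | br t c iht ihc =>
    intro ε hε
    have key : ∀ᶠ N : ℕ in atTop, ∀ p q : Fin N × Fin N,
        ‖op N (vN N) (Tb.br t c) p q‖ ≤ Real.exp (N * ((Rt t + Rt c) / (2 * π) + ε)) := by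
      filter_upwards [iht (ε / 3) (by positivity), ihc (ε / 3) (by positivity),
        Pool.Agent.W481.QAT.pow3 (show 0 < ε / 3 by positivity), eventually_ge_atTop 1] with
        N h1 h2 h3 h4 p q
      have hN1 : (1 : ℝ) ≤ N := by exact_mod_cast h4
      have e : op N (vN N) (Tb.br t c) p q =
          ∑ r, op N (vN N) t p r * rot N (vN N) (op N (vN N) c) r q := rfl
      rw [e]
      have h5 := Pool.Agent.W28.QAT.sum_bound (N := N)
        (g := fun r => op N (vN N) t p r * rot N (vN N) (op N (vN N) c) r q)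
        (c := Real.exp (N * (Rt t / (2 * π) + ε / 3)) * Real.exp (N * (Rt c / (2 * π) + ε / 3)))
        (fun r => by
          rw [norm_mul]
          refine mul_le_mul (h1 p r) ?_ (norm_nonneg _) (Real.exp_pos _).le
          rw [norm_rot h4]
          exact h2 _ _)
      refine h5.trans ?_
      have h6 : (N : ℝ) ^ 2 ≤ Real.exp (ε / 3 * N) := by
        refine le_trans ?_ h3
        exact pow_le_pow_right₀ hN1 (by norm_num)
      refine (mul_le_mul_of_nonneg_right h6 (by positivity)).trans ?_
      rw [← Real.exp_add, ← Real.exp_add]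
      apply le_of_eq
      congr 1
      ring
    rcases le_total (Rt t + Rt c) (30 * lob (π / 3) + 16 * lob (π / 4) * (Tb.br t c).ne) with h | h
    · have e : Rt (Tb.br t c) = Rt t + Rt c := min_eq_left h
      rw [e]
      exact key
    · have e : Rt (Tb.br t c) = 30 * lob (π / 3) + 16 * lob (π / 4) * (Tb.br t c).ne :=
        min_eq_right h
      rw [e]
      filter_upwards [ent_all (Tb.br t c) ε hε] with N hN p q
      have h := hN p q
      rw [const_eq] at h
      exact h

end Pool.Agent.Q191.AT
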